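import Pool.Agent.H15.S4.Inst
import Pool.Agent.H20.D4.An
import Pool.Agent.H21.IS.Lim

/-!
# Section 4 of `db5e86_proof`: the limit data
-/

set_option autoImplicit false
set_option linter.unusedSectionVars false

open scoped InnerProductSpace Topology ContDiff
open Set Filter

namespace Pool.Agent.H15.S4

open Pool.Agent.H91.GE Pool.Agent.H59.Zar Pool.Agent.H59.ND
open Pool.Agent.H20.D4 hiding hB hB' hC1 hK1 hK2

variable {E F : Type*} [NormedAddCommGroup E] [InnerProductSpace ℝ E] [FiniteDimensional ℝ E]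
  [NormedAddCommGroup F] [InnerProductSpace ℝ F] [FiniteDimensional ℝ F]
  {S : Set E} {A : E × E → E} {K K₂ : NNReal} {Φ : ℝ → E × E → E × E} {c : ℕ}
  {R : Set ((E × E) × (E × E))}

/-- The data of the limit `t → 0+` at a transverse vector `w`. -/
noncomputable def dat (h : GFlow F S A K K₂ Φ) (hR : RetRel Φ (UT S) c R) {w : E × E}
    (hw : w ∈ UT S) (htr : ∀ k ∈ Y R w, k.1 = 0 → k = 0) : Pool.Agent.H21.IS.Dat E where
  V := VV S w
  V' t := VV S (Φ t w)
  Y₀ := YO R w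
  B := quo (J1 Φ w)
  C := C1 Φ w
  B' := quo (J2 Φ w)
  k₁ := K1 Φ w
  k₂ := K2 Φ w
  D := DA A w
  hB := Pool.Agent.H20.D4.hB h w
  hB0 := quo_zero
  hC := Pool.Agent.H20.D4.hC1 h w
  hC0 := C1_zero h w
  hB' := Pool.Agent.H20.D4.hB' h w
  hB'0 := quo_zero
  hk₁ := Pool.Agent.H20.D4.hK1 h w
  hk₁0 := K1_zero h w
  hk₂ := Pool.Agent.H20.D4.hK2 h w
  hk₂0 := K2_zero h w
  dim := dim h hR hw
  BV := by
    intro t ht x hx
    rw [quo_ne ht.ne']
    exact BV h hR hw t x hx
  BV' := by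
    intro t ht x hx
    rw [quo_ne ht.ne']
    have h1 := BV' h hR hw t x hx
    rw [← smul_neg] at h1
    exact h1
  CV := by
    intro t ht k hk x hx hxk
    rw [quo_ne ht.ne'] at hxk
    exact CV h hR hw ht k hk x hx hxk
  YV := YV hR hw
  YV' t _ := YV' h hR hw t
  Yz k hk := htr k hk.1
  hD := hD h hw

end Pool.Agent.H15.S4
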