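import Pool.Agent.H59.Zar.Inst

/-!
# Section 4 of `db5e86_proof`: the geometric fields of the limit data
-/

set_option autoImplicit false
set_option linter.unusedSectionVars false

open scoped InnerProductSpace Topology ContDiff
open Set Filter

namespace Pool.Agent.H15.S4

open Pool.Agent.H91.GE Pool.Agent.H59.Zar Pool.Agent.H59.ND

variable {E F : Type*} [NormedAddCommGroup E] [InnerProductSpace ℝ E] [FiniteDimensional ℝ E]
  [NormedAddCommGroup F] [InnerProductSpace ℝ F] [FiniteDimensional ℝ F]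
  {S : Set E} {A : E × E → E} {K K₂ : NNReal} {Φ : ℝ → E × E → E × E} {c : ℕ}
  {R : Set ((E × E) × (E × E))}

/-- The tangent vectors at `w.1` orthogonal to `w.2`. -/
noncomputable def VV (S : Set E) (w : E × E) : Submodule ℝ E :=
  ZT S w.1 ⊓ LinearMap.ker (innerSL ℝ w.2).toLinearMap

theorem mem_VV {w : E × E} {x : E} : x ∈ VV S w ↔ x ∈ ZT S w.1 ∧ ⟪w.2, x⟫_ℝ = 0 := Iff.rfl

/-- `(0, x)` is tangent to the unit tangent bundle. -/
theorem mem_VV_iff (h : GFlow F S A K K₂ Φ) {w : E × E} (hw : w ∈ UT S) {x : E} :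
    x ∈ VV S w ↔ ((0 : E), x) ∈ ZT (UT S) w := (ver_mem_iff h.sub hw).symm

/-- In the form of `TSet`. -/
theorem mem_VV_TSet (h : GFlow F S A K K₂ Φ) {w : E × E} (hw : w ∈ UT S) {x : E} :
    x ∈ VV S w ↔ (w.1, x) ∈ TSet S ∧ ⟪x, w.2⟫_ℝ = 0 := by
  rw [mem_VV, mem_TS h.sub (fst_mem_TSet hw.1), real_inner_comm]

theorem finrank_VV (h : GFlow F S A K K₂ Φ) {w : E × E} (hw : w ∈ UT S) :
    Module.finrank ℝ F + (Module.finrank ℝ (VV S w) + 1) = Module.finrank ℝ E := by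
  obtain ⟨O, hO, f, hf⟩ := h.sub w.1 (fst_mem_TSet hw.1)
  have h0 : Module.finrank ℝ F ≤ Module.finrank ℝ E := by
    have h1 := Pool.Agent.H59.Zar.finrank_ker (hf.surj w.1 hO)
    omega
  have h1 : Module.finrank ℝ (ZT S w.1) = Module.finrank ℝ E - Module.finrank ℝ F :=
    finrank_TS (n := Module.finrank ℝ E - Module.finrank ℝ F) (by omega) h.sub
      (fst_mem_TSet hw.1)
  set φ : ZT S w.1 →ₗ[ℝ] ℝ := (innerSL ℝ w.2).toLinearMap.comp (ZT S w.1).subtype with hφ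
  have h2 : Module.finrank ℝ (VV S w) = Module.finrank ℝ (LinearMap.ker φ) := by
    have h3 : (LinearMap.ker φ).map (ZT S w.1).subtype = VV S w := by
      ext x
      constructor
      · rintro ⟨y, hy, rfl⟩
        exact ⟨y.2, hy⟩
      · rintro ⟨hx1, hx2⟩
        exact ⟨⟨x, hx1⟩, hx2, rfl⟩
    rw [← h3]
    exact Submodule.finrank_map_subtype_eq _ _
  have h3 : Function.Surjective φ := by
    intro r
    refine ⟨r • ⟨w.2, snd_mem_TS h.sub hw⟩, ?_⟩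
    rw [map_smul]
    show r • ⟪w.2, w.2⟫_ℝ = r
    rw [real_inner_self_eq_norm_sq, hw.2]
    simp
  have h4 := LinearMap.finrank_range_add_finrank_ker φ
  rw [LinearMap.range_eq_top.2 h3, finrank_top, Module.finrank_self] at h4
  omega

theorem dim (h : GFlow F S A K K₂ Φ) (hR : RetRel Φ (UT S) c R) {w : E × E} (hw : w ∈ UT S)
    (t : ℝ) : Module.finrank ℝ (VV S (Φ t w)) = Module.finrank ℝ (VV S w) := by
  have h1 := finrank_VV h hw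
  have h2 := finrank_VV h (hR.flow_mem hw t)
  omega

/-- The vectors of `Y` orthogonal to the flow direction. -/
noncomputable def YO (R : Set ((E × E) × (E × E))) (w : E × E) : Submodule ℝ (E × E) :=
  Y R w ⊓ LinearMap.ker ((innerSL ℝ w.2).toLinearMap.comp (LinearMap.fst ℝ E E))

theorem mem_YO {w k : E × E} : k ∈ YO R w ↔ k ∈ Y R w ∧ ⟪w.2, k.1⟫_ℝ = 0 := Iff.rfl

theorem YV (hR : RetRel Φ (UT S) c R) {w : E × E} (hw : w ∈ UT S) :
    ∀ k ∈ YO R w, k.1 ∈ VV S w := by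
  rintro k ⟨hk, hk0⟩
  exact ⟨fst_mem_TS hw (hR.Y_le hw hk), hk0⟩

/-- Tangent vectors orthogonal to the flow direction stay so. -/
theorem fst_mem_VV (h : GFlow F S A K K₂ Φ) (hR : RetRel Φ (UT S) c R) {w : E × E}
    (hw : w ∈ UT S) {a : E × E} (ha : a ∈ ZT (UT S) w) (ha0 : ⟪w.2, a.1⟫_ℝ = 0) (t : ℝ) :
    (fderiv ℝ (Φ t) w a).1 ∈ VV S (Φ t w) :=
  ⟨fst_mem_TS (hR.flow_mem hw t) ((hR.flow_ZTU hw t).2 ha), (theta_flow h hw ha t).trans ha0⟩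

theorem YV' (h : GFlow F S A K K₂ Φ) (hR : RetRel Φ (UT S) c R) {w : E × E} (hw : w ∈ UT S)
    (t : ℝ) : ∀ k ∈ YO R w, (fderiv ℝ (Φ t) w k).1 ∈ VV S (Φ t w) := by
  rintro k ⟨hk, hk0⟩
  exact fst_mem_VV h hR hw (hR.Y_le hw hk) hk0 t

theorem BV (h : GFlow F S A K K₂ Φ) (hR : RetRel Φ (UT S) c R) {w : E × E} (hw : w ∈ UT S)
    (t : ℝ) : ∀ x ∈ VV S w, t⁻¹ • (fderiv ℝ (Φ t) w ((0 : E), x)).1 ∈ VV S (Φ t w) := by
  intro x hx
  refine (VV S (Φ t w)).smul_mem _ (fst_mem_VV h hR hw ((mem_VV_iff h hw).1 hx) ?_ t)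
  exact inner_zero_right _

theorem BV' (h : GFlow F S A K K₂ Φ) (hR : RetRel Φ (UT S) c R) {w : E × E} (hw : w ∈ UT S)
    (t : ℝ) : ∀ x ∈ VV S (Φ t w),
      -(t⁻¹ • (fderiv ℝ (Φ (-t)) (Φ t w) ((0 : E), x)).1) ∈ VV S w := by
  intro x hx
  have h1 := BV h hR (hR.flow_mem hw t) (-t) x hx
  rw [hR.flow_neg, inv_neg, neg_smul] at h1
  exact h1

theorem CV (h : GFlow F S A K K₂ Φ) (hR : RetRel Φ (UT S) c R) {w : E × E} (hw : w ∈ UT S)
    {t : ℝ} (ht : 0 < t) : ∀ k ∈ YO R w, ∀ x ∈ VV S w,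
      t⁻¹ • (fderiv ℝ (Φ t) w ((0 : E), x)).1 = (fderiv ℝ (Φ t) w k).1 →
        (fderiv ℝ (Φ t) w ((0 : E), x)).2 - t • (fderiv ℝ (Φ t) w k).2 ∈ VV S (Φ t w) := by
  rintro k ⟨hk, hk0⟩ x hx hxk
  have h1 : fderiv ℝ (Φ t) w ((0 : E), x) ∈ ZT (UT S) (Φ t w) :=
    (hR.flow_ZTU hw t).2 ((mem_VV_iff h hw).1 hx)
  have h2 : fderiv ℝ (Φ t) w k ∈ ZT (UT S) (Φ t w) := (hR.flow_ZTU hw t).2 (hR.Y_le hw hk)
  have h3 := (ZT (UT S) (Φ t w)).sub_mem h1 ((ZT (UT S) (Φ t w)).smul_mem t h2)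
  have h4 : fderiv ℝ (Φ t) w ((0 : E), x) - t • fderiv ℝ (Φ t) w k =
      ((0 : E), (fderiv ℝ (Φ t) w ((0 : E), x)).2 - t • (fderiv ℝ (Φ t) w k).2) := by
    refine Prod.ext ?_ rfl
    rw [Prod.fst_sub, Prod.smul_fst, ← hxk, smul_smul, mul_inv_cancel₀ ht.ne', one_smul, sub_self]
  rw [h4] at h3
  exact (mem_VV_iff h (hR.flow_mem hw t)).2 h3

/-- If `⟪D x, u⟫ = 0` is needed on `V`. -/
theorem hD (h : GFlow F S A K K₂ Φ) {w : E × E} (hw : w ∈ UT S) :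
    ∀ x ∈ VV S w, ∀ u ∈ VV S w, ⟪fderiv ℝ A w ((0 : E), x), u⟫_ℝ = 0 :=
  fun _ hx _ hu => inner_dA h hw hx.1 hu.1

end Pool.Agent.H15.S4
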